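import Pool.Agent.V11322.TN.Main

set_option autoImplicit false

/-!
# The Tate conjecture for the products of cyclic coverings of degree a power of `ℓ` with arbitrary
smooth varieties

Let `k` be a field with `q` elements and `ℓ` a prime dividing `q - 1`. For `i` in a set `ι` let
`F i` be a polynomial in `m i` variables over `k`, and let `U_i` be the affine variety
`y ^ (ℓ ^ a i) = F i (x_1, …, x_(m i))`, a cyclic covering of the affine space, say with `F i = 0`
smooth. Let `Y` be an ARBITRARY smooth variety over `k`.

The cohomology with compact support of `U_i` is the sum of that of the affine space, and of the sum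
`V i` of the cohomology groups of the affine space with coefficients in the Kummer sheaves for `F i`
of the nontrivial characters `χ` in `J i` of order dividing `ℓ ^ a i`. If they are concentrated in
the degree `m i` (for example if the projective closure of `F i = 0` is smooth and transversal to
the hyperplane at infinity), then by Grothendieck's formula the Frobenius endomorphism `T i` of `V i`
satisfies `IsKummerFrobenius`: the product over the closed points `z` of the affine space of the
factors `1 - χ(N F(z)) X ^ deg z`, `χ ∈ J i`, is `det (1 - X T i)` or its inverse. The zeta function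
of the hypersurface `F i = 0` is given by an integral polynomial `L i` (`IsHypersurfacePolynomial`).
`W` is a cohomology group of `Y` (or its dual), with the Frobenius endomorphism `U` and
`R = det (1 - X U)`, a polynomial with algebraic integers as coefficients.

Suppose that no product of roots `x i`, `i ∈ S ≠ ∅`, of the polynomials `L i` modulo `ℓ` and of a
root of `R` modulo a prime over `ℓ` is equal to one (`NonResonant`: some iterated resultants are not
divisible by primes over `ℓ`). For example for one covering and a point `Y` the condition is that
`L 1 (1)` is not divisible by `ℓ`; for two coverings and a point it is that `L 1 (1)`, `L 2 (1)` and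
the resultant of `L 1` and the reverse of `L 2` are not divisible by `ℓ`.

Theorem. Then for all nonempty finite `S` the space `(⨂_{i ∈ S} V i) ⊗ W` contains no Tate classes,
over `k` and over all extensions of `k` of degree `ℓ ^ s`: `(⨂ T i ⊗ U) ^ (ℓ ^ s) - q ^ c` is
invertible, so there are no eigenvectors, no invariant functionals (which are the Tate classes in
the cohomology without supports, by Poincaré duality), and none on any subquotient.

Consequence. By the Künneth formula all Tate classes of `∏ U_i × Y` come from `Y`: if `T^j(Y)` holds
for all `j`, then `T^j(∏ U_i × Y)` holds for all `j`, over all extensions of `k` of degree `ℓ ^ s`.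
The same is true for smooth projective coverings of projective spaces in the place of the `U_i`, the
primitive cohomology being a quotient of `V i`, and over finitely generated fields (for instance
number fields) for varieties with one place of good reduction which is of this kind.
-/

namespace Pool.Agent.Results.MP_2a05c8_ag.CyclicCoversTimesSmooth

open Pool.Agent.TH639.SN Pool.Agent.V11322.TN
open scoped TensorProduct

/-- The polynomials `F i` with the polynomials `L i` of the hypersurfaces `F i = 0`, the finite sets
`J i` of characters of `ℓ`-power order and the Frobenius endomorphisms `T i` on the new parts `V i` of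
the cohomology of the coverings `y ^ (ℓ ^ a i) = F i`. -/
structure Coverings (ℓ : ℕ) {E : Type} [Field E] (k : Type) [Field k] {ι : Type} {V : ι → Type}
    [∀ i, AddCommGroup (V i)] [∀ i, Module E (V i)] [∀ i, FiniteDimensional E (V i)]
    (T : ∀ i, Module.End E (V i)) where
  /-- the numbers of variables -/
  m : ι → ℕ
  /-- the polynomials -/
  F : ∀ i, MvPolynomial (Fin (m i)) k
  /-- the polynomials of the hypersurfaces -/
  L : ι → Polynomial ℤ
  /-- the characters -/
  J : ι → Finset (MulChar k (integralClosure ℤ E))
  /-- the degrees of the coverings are `ℓ ^ a i` -/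
  a : ι → ℕ
  poly : ∀ i, IsHypersurfacePolynomial (F i) (L i)
  order : ∀ i, ∀ χ ∈ J i, χ ^ (ℓ ^ a i) = 1
  frob : ∀ i, IsKummerFrobenius (F i) (J i) (T i)

/-- There are no Tate classes for the Frobenius endomorphism `Φ` of `M`, over the extensions of `k`
of degree `ℓ ^ s`. -/
def NoTate (k : Type) (ℓ : ℕ) {E M : Type} [Field E] [AddCommGroup M] [Module E M]
    (Φ : Module.End E M) : Prop :=
  ∀ s c : ℕ, IsUnit (algebraMap E (Module.End E M) ((Nat.card k : E) ^ c) - Φ ^ (ℓ ^ s)) ∧
    (∀ v : M, (Φ ^ (ℓ ^ s)) v = (Nat.card k : E) ^ c • v → v = 0) ∧
    ∀ f : M →ₗ[E] E, (∀ v, f ((Φ ^ (ℓ ^ s)) v) = (Nat.card k : E) ^ c * f v) → f = 0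

theorem result {E : Type} [Field E] [CharZero E] [IsAlgClosed E] {k : Type} [Field k] [Finite k]
    {ℓ : ℕ} (hℓ : ℓ.Prime) (hd : ℓ ∣ Nat.card k - 1) {ι : Type} {V : ι → Type}
    [∀ i, AddCommGroup (V i)] [∀ i, Module E (V i)] [∀ i, FiniteDimensional E (V i)] {W : Type}
    [AddCommGroup W] [Module E W] [FiniteDimensional E W] {T : ∀ i, Module.End E (V i)}
    (D : Coverings ℓ k T) {U : Module.End E W} {R : Polynomial (integralClosure ℤ E)}
    (hR : R.map (algebraMap (integralClosure ℤ E) E) = U.charpoly.reverse)
    (hres : NonResonant ℓ D.L R) (S : Finset ι) (hS : S.Nonempty) :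
    NoTate k ℓ (TensorProduct.map (PiTensorProduct.map fun i : S => T i) U) :=
  fun s c => ⟨no_tate hℓ hd D.poly D.order D.frob hR hres S hS s c,
    no_tate' hℓ hd D.poly D.order D.frob hR hres S hS s c⟩

end Pool.Agent.Results.MP_2a05c8_ag.CyclicCoversTimesSmooth
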