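import Pool.Agent.V11219.SmMain

/-!
# The Tate conjecture for the products of varieties with one place of degeneration with arbitrary
smooth varieties

Let `k` be a finitely generated field (of any characteristic), `Γ` its Galois group, and `K` the
algebraic closure of `ℚ_ℓ`. Let `V_i` (`i` in a finite set) be representations of `Γ` on pieces of
odd degree of the cohomology of smooth projective varieties `X_i`, with coefficients extended to `K`:
for instance `H^1` of a curve or of an abelian variety, the middle cohomology of a complete
intersection of odd dimension, or the orthogonal complement of the algebraic classes in the cohomology
of any `X_i` of odd dimension, if it is in the middle degree. They have nondegenerate alternating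
forms `B_i`, respected by `Γ` up to a character `μ_i` (a power of the cyclotomic character). We suppose
that `V_i` is irreducible under all subgroups of finite index.

Let `U` be an **arbitrary smooth variety** over `k`, proper or not, and `M = H^b(U, ℚ_ℓ(j)) ⊗ K`, or
any other representation of `Γ` of finite dimension: nothing is assumed about it, except for the
following local conditions (`M` may be reducible and not semisimple). For every `i` there is
one element `γ_i` of `Γ` with `μ_i (γ_i) = 1` (an element of the inertia group of a place `v_i` which
does not divide `ℓ`), such that one of the following is true (different `i` may be of different kinds):

* `γ_i` acts trivially on `M` and on the `V_j`, `j ≠ i` (for instance, `U` is an open subvariety of a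
  smooth projective variety, and the complement of a normal crossings divisor, with good reduction at
  `v_i`), and `(γ_i - 1) ^ 2 = 0` on `V_i`, where the rank of `γ_i - 1` is arbitrary, but the rank and
  the multiplicities of the nonzero eigenvalues of the operators `(γ_i - 1) (γ' - 1)`, for
  `γ'` with the same properties (for instance conjugates of `γ_i`), have no common prime factor, or
  one of them is two. Example: `X_i` has at `v_i` any number of ordinary double points, and the image
  of `Γ` is Zariski dense in the group of symplectic similitudes of `V_i`;
* `γ_i` has finite order on `V_i`, its eigenvalues on `V_i` are isolated with respect to a group `Λ_i`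
  of numbers which contains all eigenvalues of `γ_i` on `M` and on the `V_j`, `j ≠ i`, and some element
  of `Γ` has two eigenvalues on `V_i` whose quotient is not a root of unity. Example:
  the model of `X_i` at `v_i` is smooth except for one singularity
  `x_0 ^ 2 + ⋯ + x_{n-1} ^ 2 + x_n ^ (2m+1) = t`, `t` of valuation prime to `2 (2m + 1)`,
  `2 m < dim V_i`, in residue characteristic prime to `2 (2m + 1)`; and the eigenvalues of `γ_i` on
  the cohomology of `U` and of the other `X_j` are roots of unity of odd order or of order prime to
  `2m + 1`. This is so if some compactification of `U` has semistable reduction at `v_i`, where
  `Λ_i = 1` is sufficient.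

The classes in `H(X_1) ⊗ ⋯ ⊗ H(X_r) ⊗ H(U)` (several `X_s` may be equal) which belong to the
product of pieces `V_i` and of `M` are, by Poincaré duality, the multilinear maps of `r` variables
from `⊕ V_i` to `M`, and the ones which are fixed by the subgroup `Δ` are the equivariant maps.

The theorem says (for all `r` and all subgroups `Δ` of finite index) that these classes are exactly
the linear combinations of the products of the classes of the forms `B_i` on pairs of factors (these
are, up to algebraic classes on `X_i × X_i`, the classes of the diagonals of the `X_i`) and of classes
`w` in the cohomology of `U` which are fixed by `Δ` up to a Tate twist. So **for all smooth varieties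
`U` as above the Tate conjecture for `X × U`, for all products `X` of powers of the `X_i`, in all
codimensions and over all finite extensions of `k`, is equivalent to the Tate conjecture for `U`** (if
the other cohomology of the `X_i` is algebraic, as for curves and complete intersections).

The proof. The maps of the variables in `V_i`, for one `i`, with values in the multilinear maps `E` of
the other variables: the Lie algebra of the operators on `V_i` which kill all such maps equivariant
under a subgroup of finite index contains operators of square zero and rank one or two. In the first
case this is by the theory of extremal elements. In the second case it contains the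
components, for the eigenvalues outside of `Λ_i`, of the conjugation with `γ_i` of operators on
`V_i` which are, together with an operator on `E`, compatible with these maps, since the
eigenvalues of `γ_i` on `E` are in `Λ_i`. So it is the symplectic Lie algebra; the first
fundamental theorem for a product of symplectic Lie algebras gives the form of the maps, and a
representation with the smallest number of terms gives the invariance of the classes `w`.
-/

set_option autoImplicit false

namespace Pool.Agent.Results.MP_2a05c8_ag.LocalMonodromyTimesSmooth

open Module Pool.Agent.V11219.Sm

/-- **The classes on the products with arbitrary smooth varieties.** -/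
theorem result {K : Type} [Field K] [CharZero K] [IsAlgClosed K] {Γ : Type} [Group Γ]
    {ι : Type} [Fintype ι] [DecidableEq ι] {V : ι → Type} [∀ i, AddCommGroup (V i)]
    [∀ i, Module K (V i)] [∀ i, FiniteDimensional K (V i)] {M : Type} [AddCommGroup M]
    [Module K M] [FiniteDimensional K M] (μ : ι → Γ →* K) (ρ : ∀ i, Representation K Γ (V i))
    (B : ∀ i, V i →ₗ[K] V i →ₗ[K] K) (σ : Representation K Γ M) (h : LocalFamily μ ρ B σ)
    {S : Type} [Finite S] (Δ : Subgroup Γ) (hΔ : Δ.FiniteIndex)
    (f : MultilinearMap K (fun _ : S => ∀ i, V i) M) :
    (∀ g ∈ Δ, ∀ x, f (fun s i => ρ i g (x s i)) = σ g (f x)) ↔ ClassesSplit μ B σ Δ f := by
  classical
  have := Fintype.ofFinite S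
  exact ⟨fun hf => h.split hΔ hf, fun hf => h.eqv_of_split hf⟩

end Pool.Agent.Results.MP_2a05c8_ag.LocalMonodromyTimesSmooth
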