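import Mathlib
import Pool.Agent.V1141.OF.Times5

/-!
# The Tate conjecture for products of an arbitrary smooth variety with varieties which have
# independent Frobenius eigenvalues in (different) odd degrees

Let `K` be a finitely generated field with Galois group `Γ` and cyclotomic character `χ`. Let `X i`,
`i ∈ I`, be finitely many smooth projective varieties over `K`, and `V i` the dual of the cohomology
group of `X i` in the odd degree `2 * e i + 1` (different `i` may have different degrees), with
coefficients in the algebraic closure `k` of `ℚ_ℓ`; or of a direct summand of it, on which the Poincare
pairing (twisted by a power of the Lefschetz operator) is a nondegenerate alternating form `ω i` with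
the multiplier `χ ^ (2 * e i + 1)`. Let `U` be an ARBITRARY smooth variety over `K`, proper or not, and
let `M` be any Tate twist of a cohomology group of `U` (or any other representation of `Γ`; for example
the tensor product of the cohomology groups of `U` and of the other cohomology groups of the `X i`).

Suppose that for ONE element `γ` of `Γ`, for example a Frobenius element at one closed point of a
model, the eigenvalues of `γ` on each `V i` are simple, and satisfy only the trivial multiplicative
relations (those between dual eigenvalues `a`, `b`, `a * b = χ(γ) ^ (2 * e i + 1)`)

* with each other and with `χ(γ)`: `OnlyTrivialRelations` for `β = 1`;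
* with each other, with `χ(γ)` and with `β`, for each eigenvalue `β` of `γ` on `M`
  (`OnlyTrivialRelations`); or, instead of this condition (`ConjugatedOver`), for every eigenvalue `a`
  on `V i` some endomorphism `σ` of the field `k` fixes a positive power of `β`, the number `χ(γ)` and
  the characteristic polynomials of `γ` on the `V i`, and maps `a` to its dual. For example, this
  condition is true if a power of `β` is rational (supersingular reduction of `U`), or lies in a
  field linearly disjoint from the field generated by the eigenvalues on the `V i`, or in a totally
  real field, if the characteristic polynomials have rational coefficients and `γ` is a Frobenius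
  element.

Then the Tate classes (over all finite extensions of `K`) in all tensor products of the groups `V i`
(each can occur with any multiplicity) with `M` are linear combinations of products of Tate classes on
the products `X i × X j` (in degree `(2 * e i + 1) + (2 * e j + 1)`) and of Tate classes in `M`.

So for example, if the `X i` are complete intersections of odd dimensions, or curves, or abelian
varieties, or threefolds whose second cohomology is algebraic, the Tate conjecture (in all codimensions)
for all products of powers of the `X i` with `U` follows from the Tate conjecture for `U` and for
the `X i × X j` (where it says, for `i ≠ j`, that nothing is left to prove, and for `i = j` that the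
`Γ`-equivariant projections of `V i` are algebraic).

There is NO hypothesis on the semisimplicity of the representations: it is not known for cohomology
groups of degree greater than one. The torus generated by the eigenvalues is the Cartan subalgebra of
the symplectic Lie algebra. The Lie algebra `𝔤` of all endomorphisms which kill all scalar components of
all equivariant maps contains it; by the representation theory of `sl(2)`, a multilinear form which is
killed by a root vector and by the torus is killed by the opposite root vector, so that the root system
of `𝔤` is symmetric and `𝔤` is a product of symplectic and general linear Lie algebras, to which the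
first fundamental theorem of invariant theory applies.
-/

set_option autoImplicit false

namespace Pool.Agent.Results.MP_2a05c8_ag.OddDegreesTimesSmooth

open Module Pool.Agent.V1141.OF

/-- **Tate classes on products of varieties with independent eigenvalues in odd degrees and of
arbitrary smooth varieties.** -/
theorem result {k : Type} [Field k] [CharZero k] [IsAlgClosed k] {I : Type} [Fintype I]
    -- the duals of the cohomology groups of `X i` in degree `2 * e i + 1`
    {V : I → Type} [∀ i, AddCommGroup (V i)] [∀ i, Module k (V i)]
    [∀ i, FiniteDimensional k (V i)]
    -- the cohomology of `U`
    {M : Type} [AddCommGroup M] [Module k M] [FiniteDimensional k M]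
    -- the Galois group, its actions and the cyclotomic character
    {Γ : Type} [Group Γ] (ρ : ∀ i, Representation k Γ (V i)) (τ : Representation k Γ M)
    (χ : Γ →* k) (e : I → ℕ)
    -- the Poincare pairings
    (ω : ∀ i, V i →ₗ[k] V i →ₗ[k] k) (halt : ∀ i, ∀ v, ω i v v = 0)
    (hnd : ∀ i, ∀ u, (∀ v, ω i v u = 0) → u = 0)
    (hω : ∀ i s u v, ω i (ρ i s u) (ρ i s v) = χ s ^ (2 * e i + 1) * ω i u v)
    -- one element of the Galois group
    (γ : Γ) (hsep : ∀ i, (LinearMap.charpoly (ρ i γ)).Separable)
    (hrel : OnlyTrivialRelations ρ χ e γ 1)
    (hM : ∀ β, Module.End.HasEigenvalue (τ γ) β →
      OnlyTrivialRelations ρ χ e γ β ∨ ConjugatedOver ρ χ e γ β) :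
    TateClassesSplit ρ τ χ e := by
  classical
  exact times_main ρ τ χ e ω halt hnd hω γ hsep hrel fun β hβ =>
    (hM β hβ).elim id fun h => onlyTrivial_of_conj ρ χ e ω hnd hω hrel h

end Pool.Agent.Results.MP_2a05c8_ag.OddDegreesTimesSmooth
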