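import Pool.Agent.V1183.SV.Main

/-!
# Tate classes are detected by a sparse set of places

Let `f` be any function. There is a sequence `T` of prime numbers, growing faster than prescribed by `f`,
and splitting completely in an infinite unramified tower `L / k`, such that the following holds for every
number field `K`, every prime number `p` and every finite family `V_s = ℚ_p ^ (n s)` of continuous
representations of `G_K` which are unramified outside finite sets of primes (for instance the cohomology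
groups of smooth varieties over `K`, not necessarily proper, their duals, their quotients by algebraic
classes, and the Tate twists `ℚ_p(1)`, `ℚ_p(-1)`).

There is one finite extension `K'` of `K` such that for every multilinear form `b` on a product of the
`V_s` (i.e. a class in a tensor product of their duals, of any length) the following are equivalent:
* `b` is a Tate class, i.e. fixed by the absolute Galois group of some finite extension of `K`;
* `b` is fixed by the absolute Galois group of `K'`;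
* `b` is a Tate class at the places above almost all `T i`: it is fixed by a power of each Frobenius element
  in `G_K` above `T i`.
-/

set_option autoImplicit false

namespace Pool.Agent.Results.MP_2a05c8_ag.SparsePlaces

open NumberField IntermediateField Module Polynomial

attribute [local instance 10] DivisionRing.toRatAlgebra

/-- the absolute Galois group of `ℚ` -/
abbrev GQ : Type := Gal(AlgebraicClosure ℚ/ℚ)

/-- the ring of all algebraic integers -/
abbrev ZBar : Type := 𝓞 (AlgebraicClosure ℚ)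

/-- `τ` lies in the inertia group at the maximal ideal `P` of the ring of all algebraic integers -/
def Inertia (P : Ideal ZBar) (τ : GQ) : Prop := ∀ x : ZBar, τ • x - x ∈ P

/-- `σ` is a (geometric) Frobenius element at the maximal ideal `P` above the prime number `q`: it induces
the inverse of `x ↦ x ^ q` on the residue field -/
def Frobenius (q : ℕ) (P : Ideal ZBar) (σ : GQ) : Prop := ∀ x : ZBar, x - (σ • x) ^ q ∈ P

/-- `L` is a totally real Galois extension of infinite degree of the real quadratic field `k`, unramified at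
all finite places, and a union of finite extensions of `ℚ` whose degrees are powers of two -/
structure UnramifiedTower (k L : IntermediateField ℚ (AlgebraicClosure ℚ)) : Prop where
  quadratic : finrank ℚ k = 2 ∧ ∃ s ∈ k,
    s ^ 2 = ((17 * 41 * 73 * 89 * 97 * 113 * 137 * 193 * 233 * 241 : ℕ) : AlgebraicClosure ℚ)
  le : k ≤ L
  infinite : ¬ FiniteDimensional ℚ L
  galois : ∀ σ : GQ, (∀ x ∈ k, σ x = x) → ∀ y ∈ L, σ y ∈ L
  unramified : ∀ q : ℕ, q.Prime → ∀ P : Ideal ZBar, P.IsMaximal → (q : ZBar) ∈ P → ∀ τ : GQ,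
    (∀ x ∈ k, τ x = x) → Inertia P τ → ∀ y ∈ L, τ y = y
  real : ∀ (φ : L →+* ℂ) (y : L), (φ y).im = 0
  two : ∀ y ∈ L, ∃ m : ℕ, finrank ℚ ℚ⟮y⟯ = 2 ^ m

/-- the prime number `q` is unramified and splits completely in `L`: all inertia elements and all Frobenius
elements above `q` fix `L` -/
def SplitsCompletely (q : ℕ) (L : IntermediateField ℚ (AlgebraicClosure ℚ)) : Prop :=
  ∀ P : Ideal ZBar, P.IsMaximal → (q : ZBar) ∈ P → ∀ σ : GQ, Inertia P σ ∨ Frobenius q P σ →
    ∀ y ∈ L, σ y = y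

/-- the property `C` holds for the Frobenius elements at the places of `K` of degree one above almost all
`T i` -/
def AtAlmostAll (K : IntermediateField ℚ (AlgebraicClosure ℚ)) (T : ℕ → ℕ)
    (C : K.fixingSubgroup → Prop) : Prop :=
  ∃ i₀ : ℕ, ∀ i ≥ i₀, ∀ P : Ideal ZBar, P.IsMaximal → (T i : ZBar) ∈ P →
    ∀ σ : K.fixingSubgroup, Frobenius (T i) P σ → C σ

/-- the property `C` holds for all elements of the absolute Galois group of `K'` -/
def Over (K K' : IntermediateField ℚ (AlgebraicClosure ℚ)) (C : K.fixingSubgroup → Prop) : Prop :=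
  ∀ σ : K.fixingSubgroup, (∀ x ∈ K', (σ : GQ) x = x) → C σ

section rep

variable {K : IntermediateField ℚ (AlgebraicClosure ℚ)} {p : ℕ} [Fact p.Prime]

/-- `ρ` is continuous and unramified outside a finite set of primes -/
def AlmostUnramified {n : ℕ} (ρ : K.fixingSubgroup →* GL (Fin n) ℚ_[p]) : Prop :=
  Continuous ρ ∧
  ∃ S : Finset ℕ, ∀ q : ℕ, q.Prime → q ∉ S → ∀ P : Ideal ZBar, P.IsMaximal → (q : ZBar) ∈ P →
    ∀ τ : K.fixingSubgroup, Inertia P τ → ρ τ = 1

/-- the multilinear forms on `V_(t 0) × … × V_(t (m - 1))`, where `V_s = ℚ_p ^ (n s)` -/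
abbrev Form (p : ℕ) [Fact p.Prime] {r : ℕ} (n : Fin r → ℕ) {m : ℕ} (t : Fin m → Fin r) : Type :=
  MultilinearMap ℚ_[p] (fun k : Fin m => Fin (n (t k)) → ℚ_[p]) ℚ_[p]

/-- `σ` fixes the form `b`: `b (σ x_0, …, σ x_(m-1)) = b (x_0, …, x_(m-1))` -/
def Fixes {r : ℕ} {n : Fin r → ℕ} (ρ : ∀ s, K.fixingSubgroup →* GL (Fin (n s)) ℚ_[p]) {m : ℕ}
    {t : Fin m → Fin r} (b : Form p n t) (σ : K.fixingSubgroup) : Prop :=
  ∀ x : ∀ k, Fin (n (t k)) → ℚ_[p],
    b (fun k => (ρ (t k) σ : Matrix (Fin (n (t k))) (Fin (n (t k))) ℚ_[p]).mulVec (x k)) = b x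

/-- `b` is a Tate class: it is fixed by the absolute Galois group of a finite extension of `K` -/
def IsTateClass {r : ℕ} {n : Fin r → ℕ} (ρ : ∀ s, K.fixingSubgroup →* GL (Fin (n s)) ℚ_[p]) {m : ℕ}
    {t : Fin m → Fin r} (b : Form p n t) : Prop :=
  ∃ K' : IntermediateField ℚ (AlgebraicClosure ℚ), K ≤ K' ∧ FiniteDimensional ℚ K' ∧
    Over K K' (Fixes ρ b)

/-- `b` is a Tate class at the places above almost all `T i`: some power of each Frobenius element above
`T i` in `G_K` fixes `b` -/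
def IsTateAtAlmostAll {r : ℕ} {n : Fin r → ℕ} (T : ℕ → ℕ)
    (ρ : ∀ s, K.fixingSubgroup →* GL (Fin (n s)) ℚ_[p]) {m : ℕ}
    {t : Fin m → Fin r} (b : Form p n t) : Prop :=
  AtAlmostAll K T fun σ => ∃ a : ℕ, 0 < a ∧ Fixes ρ b (σ ^ a)

theorem Fixes.mul {r : ℕ} {n : Fin r → ℕ} {ρ : ∀ s, K.fixingSubgroup →* GL (Fin (n s)) ℚ_[p]} {m : ℕ}
    {t : Fin m → Fin r} {b : Form p n t} {σ τ : K.fixingSubgroup} (h : Fixes ρ b σ)
    (h' : Fixes ρ b τ) : Fixes ρ b (σ * τ) := by
  intro x
  have h1 := h (fun k => (ρ (t k) τ : Matrix (Fin (n (t k))) (Fin (n (t k))) ℚ_[p]).mulVec (x k))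
  rw [h' x] at h1
  rw [← h1]
  congr 1
  funext k
  rw [map_mul, Units.val_mul, Matrix.mulVec_mulVec]

theorem Fixes.pow {r : ℕ} {n : Fin r → ℕ} {ρ : ∀ s, K.fixingSubgroup →* GL (Fin (n s)) ℚ_[p]} {m : ℕ}
    {t : Fin m → Fin r} {b : Form p n t} {σ : K.fixingSubgroup} (h : Fixes ρ b σ) (k : ℕ) :
    Fixes ρ b (σ ^ k) := by
  induction k with
  | zero =>
    intro x
    congr 1
    funext k
    rw [pow_zero, map_one, Units.val_one, Matrix.one_mulVec]
  | succ k ih =>
    rw [pow_succ]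
    exact ih.mul h

/-- the value of a form is a polynomial in the entries of the matrices -/
theorem exists_poly {r : ℕ} {n : Fin r → ℕ} {m : ℕ} {t : Fin m → Fin r} (b : Form p n t)
    (x : ∀ k, Fin (n (t k)) → ℚ_[p]) :
    ∃ F : MvPolynomial (Σ s : Fin r, Fin (n s) × Fin (n s)) ℚ_[p],
      ∀ A : ∀ s, Matrix (Fin (n s)) (Fin (n s)) ℚ_[p],
        MvPolynomial.eval (fun v => A v.1 v.2.1 v.2.2) F = b (fun k => (A (t k)).mulVec (x k)) := by
  refine ⟨∑ j : (∀ k, Fin (n (t k))), (∏ k, ∑ l, MvPolynomial.X ⟨t k, j k, l⟩ *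
    MvPolynomial.C (x k l)) * MvPolynomial.C (b fun k => Pi.single (j k) 1), fun A => ?_⟩
  have h1 : (fun k => (A (t k)).mulVec (x k)) =
      fun k => ∑ l : Fin (n (t k)), (A (t k)).mulVec (x k) l • (Pi.single l 1 : Fin (n (t k)) → ℚ_[p]) := by
    funext k
    exact (pi_eq_sum_univ' _).trans (Finset.sum_congr rfl fun l _ => by congr 1)
  rw [h1, MultilinearMap.map_sum]
  simp only [map_sum, map_mul, map_prod, MvPolynomial.eval_C, MvPolynomial.eval_X]
  refine Finset.sum_congr rfl fun j _ => ?_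
  rw [MultilinearMap.map_smul_univ, smul_eq_mul]
  rfl

end rep

theorem exists_field (K : IntermediateField ℚ (AlgebraicClosure ℚ)) [FiniteDimensional ℚ K]
    (U : Subgroup GQ) (hU : IsOpen (U : Set GQ)) :
    ∃ K' : IntermediateField ℚ (AlgebraicClosure ℚ), K ≤ K' ∧ FiniteDimensional ℚ K' ∧
      ∀ σ : GQ, (∀ x ∈ K', σ x = x) → σ ∈ U := by
  obtain ⟨E, hE, hEU⟩ := (krullTopology_mem_nhds_one_iff _ _ _).1 (hU.mem_nhds U.one_mem)
  refine ⟨K ⊔ E, le_sup_left, inferInstance, fun σ hσ => hEU ?_⟩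
  rw [SetLike.mem_coe, IntermediateField.mem_fixingSubgroup_iff]
  exact fun x hx => hσ x ((le_sup_right : E ≤ K ⊔ E) hx)

/-- **Main result.** -/
theorem result (f : ℕ → ℕ) :
    ∃ (T : ℕ → ℕ) (k L : IntermediateField ℚ (AlgebraicClosure ℚ)),
      (∀ i, (T i).Prime ∧ T i < T (i + 1) ∧ f (T i) < T (i + 1)) ∧
      UnramifiedTower k L ∧ (∀ i, SplitsCompletely (T i) L) ∧
      ∀ (K : IntermediateField ℚ (AlgebraicClosure ℚ)), FiniteDimensional ℚ K →
        ∀ (p : ℕ) [Fact p.Prime] (r : ℕ) (n : Fin r → ℕ)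
          (ρ : ∀ s, K.fixingSubgroup →* GL (Fin (n s)) ℚ_[p]), (∀ s, AlmostUnramified (ρ s)) →
          ∃ K' : IntermediateField ℚ (AlgebraicClosure ℚ), K ≤ K' ∧ FiniteDimensional ℚ K' ∧
            ∀ (m : ℕ) (t : Fin m → Fin r) (b : Form p n t),
              (IsTateClass ρ b ↔ IsTateAtAlmostAll T ρ b) ∧
              (IsTateClass ρ b ↔ Over K K' (Fixes ρ b)) := by
  obtain ⟨T, k, L, hT1, hT2, htow, hrep⟩ := Pool.Agent.V1183.SV.main f
  refine ⟨T, k, L, fun i => ⟨hT1 i, ?_, ?_⟩, ⟨⟨htow.rank, htow.sqrt⟩, htow.le, htow.inf, htow.galois,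
    htow.unr, htow.real, htow.two⟩, ?_, ?_⟩
  · have := hT2 i
    omega
  · have := hT2 i
    have := (hT1 i).pos
    omega
  · intro i P hP hTP σ hσ
    rcases hσ with hσ | hσ
    · exact htow.unrT i P hP hTP σ hσ
    · exact htow.split i P hP hTP σ hσ
  · intro K hK p hp r n ρ hρ
    obtain ⟨U, hU, hUK, h1⟩ := hrep K.fixingSubgroup K.fixingSubgroup_isOpen p r n ρ
      (fun s => (hρ s).1) (fun s => by
        obtain ⟨S, hS⟩ := (hρ s).2
        exact ⟨S, fun q hq hqS P hP hqP τ hτ hτP => hS q hq hqS P hP hqP ⟨τ, hτ⟩ hτP⟩)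
    obtain ⟨K', hKK', hK', hK'U⟩ := exists_field K U hU
    refine ⟨K', hKK', hK', fun m t b => ?_⟩
    have h3 : IsTateAtAlmostAll T ρ b → Over K K' (Fixes ρ b) := by
      rintro ⟨i0, hi0⟩ σ hσ x
      obtain ⟨F, hF⟩ := exists_poly b x
      have h4 := h1 (F - MvPolynomial.C (b x)) ⟨i0, fun i hi P hP hTP τ hτ hτP => by
        obtain ⟨a, ha, h2⟩ := hi0 i hi P hP hTP ⟨τ, hτ⟩ hτP
        refine ⟨a, ha.ne', fun k _ => ?_⟩
        have h5 := (h2.pow k) x
        unfold Pool.Agent.V1183.SV.ev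
        rw [map_sub, MvPolynomial.eval_C, hF, sub_eq_zero]
        rw [← pow_mul] at h5
        exact h5⟩ σ.1 (hK'U _ hσ) σ.2
      unfold Pool.Agent.V1183.SV.ev at h4
      rw [map_sub, MvPolynomial.eval_C, hF, sub_eq_zero] at h4
      exact h4
    have h2 : IsTateClass ρ b → IsTateAtAlmostAll T ρ b := by
      rintro ⟨K'', hKK'', hK'', h⟩
      refine ⟨0, fun i _ P _ _ σ _ => ?_⟩
      have hfi : K''.fixingSubgroup.FiniteIndex :=
        Pool.Agent.Y802.TS.finiteIndex_of_open K''.fixingSubgroup_isOpen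
      obtain ⟨a, ha, -, h4⟩ := Subgroup.exists_pow_mem_of_index_ne_zero hfi.index_ne_zero (σ : GQ)
      exact ⟨a, ha, h (σ ^ a) fun x hx =>
        (IntermediateField.mem_fixingSubgroup_iff _ _).1 h4 x hx⟩
    exact ⟨⟨h2, fun h => ⟨K', hKK', hK', h3 h⟩⟩, ⟨fun h => h3 (h2 h), fun h => ⟨K', hKK', hK', h⟩⟩⟩

end Pool.Agent.Results.MP_2a05c8_ag.SparsePlaces
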